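import Pool.Agent.Helper24.PR1.Pr1
import Pool.Agent.Helper90.BLD.Lbk
import Pool.Agent.Helper99.BLD.Nlwp
import Pool.Agent.Helper99.BLD.Vwt
import Pool.Agent.Helper33.CM.Tn
import Pool.Agent.Helper68.VW.Vwp

/-! Row [PR1], closed. -/

set_option autoImplicit false

namespace Pool.Agent.Helper24.PR1

/-- **[PR1]** (PR) for the prolonged corners -/
theorem st_pr1 (M : ℕ) : Pool.Agent.Helper10.BLD.ST_PR1 M :=
  pr1_of M Pool.Agent.Helper99.BLD.st_axp (Pool.Agent.Helper90.BLD.st_lbk Pool.Agent.Helper99.BLD.st_axp)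
    Pool.Agent.Helper33.CM.st_tn (Pool.Agent.Helper68.VW.st_vwp (M + 1)) (Pool.Agent.Helper99.BLD.st_vwt (M + 1))

end Pool.Agent.Helper24.PR1
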