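import Pool.Agent.Helper24.PR1.Pol
import Pool.Agent.Helper24.PR.Ncl
import Pool.Agent.Helper99.BLD.Uc
import Pool.Agent.Helper37.DK2.Ncq
import Pool.Agent.Helper56.STL.Flt

/-! ONE UNIT DIRECTION: systems at the points `(t, f, R)` of the corners of the class `C1`: the tangents are not
concentrated in the coordinates `(t, f)`. -/

set_option autoImplicit false

namespace Pool.Agent.Helper24.PR1

open Finset Filter Topology Pool.Agent.Helper69.RK Pool.Agent.Helper31.EC Pool.Agent.Helper31.EC.Sp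
open Pool.Agent.Helper31.EC.QS Pool.Agent.Helper84.MT Pool.Agent.Helper36.AM Pool.Agent.Helper13.AM
open Pool.Agent.Helper38.NS (dp)
open Pool.Agent.Helper5.DO Pool.Agent.Helper10.BLD Pool.Agent.Helper40.EL Pool.Agent.Helper89.LX
open Pool.Agent.Helper10.JET (tc)
open Pool.Agent.Helper5.HB (cq)
open Pool.Agent.Helper99.BLD (uc_sys)
open Pool.Agent.Helper37.DK2 (NCq mtan ncq_one)
open Pool.Agent.Helper49.MD (ob)

noncomputable section

section

variable {S : Sp} {q : ℕ}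

/-- lower bounds of the rates of the cells of a vector variable -/
theorem rt_geH (y : S.VV q) {e a : ℝ} (h : a ≤ H (y.dg e)) {ε : ℝ} (hε : 0 < ε) :
    ∀ᶠ k in UF, (a - ε) * (S.F k).n ≤ H (fc (Setoid.ker (y.cellv e k)) : FL (S.F k)) := by
  have h1 : y.dg e = cl (y.bdd e).toInf := io_eq (y.bdd e)
  have h2 : H (y.dg e) = ul (S.rt (y.bdd e).toInf.1 (Inf.bot : S.Inf).1) := by
    rw [h1, ← h_bot, ← cl_bot, h_cl]
  rw [h2] at h
  have h3 := ul_tendsto (UB_rt (y.bdd e).toInf (Inf.bot : S.Inf).1)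
  filter_upwards [h3.eventually (lt_mem_nhds (show a - ε < _ by linarith))] with k hk
  have hp := (S.F k).pos
  have h4 : S.rt (y.bdd e).toInf.1 (Inf.bot : S.Inf).1 k =
      (S.F k).e (Setoid.ker (y.cellv e k)) (⊤ ⊓ (S.F k).Z) / (S.F k).n := rfl
  rw [h4, top_inf_eq] at hk
  have h5 : H (fc (Setoid.ker (y.cellv e k)) : FL (S.F k)) = (S.F k).e (Setoid.ker (y.cellv e k)) (S.F k).Z := H_fc _
  rw [h5]
  exact ((lt_div_iff₀ hp).mp hk).le

/-- some coordinates of a vector variable -/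
def sub {q q' : ℕ} (y : S.VV q) (φ : Fin q' → Fin q) : S.VV q' where
  v := fun k ω i => y.v k ω (φ i)
  bd := by
    obtain ⟨K, hK, hb⟩ := y.bd
    refine ⟨K, hK, ?_⟩
    filter_upwards [hb] with k hk ω hω i
    exact hk ω hω (φ i)

theorem sub_cq {q q' : ℕ} (y : S.VV q) (φ : Fin q' → Fin q) (i : Fin q') : cq (sub y φ) i = cq y (φ i) := rfl

/-- the digits of a vector variable -/
theorem dg_cq (y : S.VV q) {r : ℝ} (hr : r ≤ 1) : y.dg r = vd (cq y) r := (Pool.Agent.Helper56.STL.vd_cor y hr).symm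

theorem pcr_le {y : S.VV q} {r : ℝ} (hr : r ≤ 1) {X : S.L} (h : ∀ j, dg (cq y j) r ≤ X) : PLe (pcr y r) (rp X) := by
  have h1 : pcr y r = rpI (y.bdd r).toInf := rfl
  have h2 : y.dg r = cl (y.bdd r).toInf := io_eq (y.bdd r)
  have h3 : y.dg r ≤ X := by
    rw [dg_cq y hr, vd_le]
    exact h
  rw [h2] at h3
  rw [h1]
  exact (rp_rpI (y.bdd r).toInf).2.trans (PLe_rp.mpr h3)

end

section

variable {M g r N r' : ℕ} {w : Fin (M + 1) → ℝ} {ρ : ℝ} {Cl : MCl (M + 1)}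
  {TT : ∀ S : Sp, MSys S (M + 1) (lin g) (Fin r) → Prop}

/-- the digits of the point `(t, f, R)` of level `e` are known to the digits of level `e` of the deep point -/
theorem x2_deep {P : Spl w 0 N} {l : Fin N} {K : ℕ} {T : Sp} {h0 : 0 < P.w P.z} {h1 : 1 ≤ P.w P.z} {c : CD T 0 N r'}
    {cb : CD (dp T (P.w P.z) h0) 0 N r'} (t : Trc h0 h1 c cb) (Ab : cb.Ax P.w P.z ρ) (wl : P.w l = K)
    (low : ∀ j, P.w l ≤ P.w j) (hK : 2 ≤ K) (i0 : Fin r') {e : ℝ} (he0 : 0 ≤ e) (he1 : e ≤ 1)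
    {H : Fin N → MvPolynomial (Fin (1 + 1) ⊕ Fin N) (QS T)} (hH : ∀ j, H j ∈ PK ⊥) (a : Fin (1 + 1) ⊕ Fin N) :
    dg (x2 c l K i0 H a) e ≤ uL _ h0 (vd cb.q e ⊔ vd cb.R e) := by
  have hd : e / P.w P.z ≤ e := div_le_self he0 h1
  refine x2_le he1 ?_ (j1_dg t Ab wl low (by omega) i0 he0 he1) (fun j => ?_) hH a
  · rw [t.dq 0 he1]
    exact uL_mono _ _ (((dg_mono _ hd).trans (dg_le_vd cb.q e 0)).trans le_sup_left)
  · rw [t.dR j he1]
    exact uL_mono _ _ (((dg_mono _ hd).trans (dg_le_vd cb.R e j)).trans le_sup_right)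

/-- the plane point of the members of the class to the level `e` -/
theorem pln_e {P : Fin N → ℝ} {z l : Fin N} {K : ℕ} {C : ∀ S : Sp, CD S 0 N r' → S.L → Prop}
    (h0 : Cl1 N r' P z l K ρ C) {S : Sp} {c : CD S 0 N r'} {O : S.L} (hc : C S c O) (i : Fin r') {e : ℝ} (he1 : e ≤ 1) :
    2 * e ≤ H (dg (c.q 0) e ⊔ dg (fl c l K i) e) := by
  have h1 := pln h0 hc i
  have h2 := h_dg_dg (c.q 0) he1
  have h3 := h_dg_dg (fl c l K i) he1
  have h4 : H (dg (c.q 0) 1 ⊔ dg (fl c l K i) 1) ≤ H ((dg (c.q 0) 1 ⊔ dg (fl c l K i) 1) ⊔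
      (dg (c.q 0) e ⊔ dg (fl c l K i) e)) := H_mono le_sup_left
  have h5 := H_chain (dg (c.q 0) e ⊔ dg (fl c l K i) e) (dg (c.q 0) 1 ⊔ dg (fl c l K i) 1)
  have h6 := h_sup_le (dg (c.q 0) 1) (dg (fl c l K i) 1) (dg (c.q 0) e ⊔ dg (fl c l K i) e)
  have h7 : h (dg (c.q 0) 1) (dg (c.q 0) e ⊔ dg (fl c l K i) e) ≤ h (dg (c.q 0) 1) (dg (c.q 0) e) := h_anti le_sup_left
  have h8 : h (dg (fl c l K i) 1) (dg (c.q 0) e ⊔ dg (fl c l K i) e) ≤ h (dg (fl c l K i) 1) (dg (fl c l K i) e) :=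
    h_anti le_sup_right
  rw [sup_comm (dg (c.q 0) e ⊔ dg (fl c l K i) e)] at h5
  linarith

/-- NON CONCENTRATION IN THE COORDINATES `(t, f)`, for all members of the class `C1` -/
theorem ncq_c1 (hA : ST_AXP) (hLB : ST_LBK) (hTN : ST_TN) (hV : ST_VWP M) (hVT : ST_VWT M) (hT : Hom M Cl g r w ρ TT)
    (P : Spl w 0 N) {l : Fin N} {K : ℕ} (low : ∀ j, P.w l ≤ P.w j) (wl : P.w l = K) (hK : 2 ≤ K)
    (hcls : Cl1 N r' P.w P.z l K ρ (C1 P ρ TT r' l)) :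
    ∃ h₀ : ℝ, 0 < h₀ ∧ ∀ (T : Sp) (c : CD T 0 N r') (O : T.L), C1 P ρ TT r' l T c O → ∀ (i0 : Fin r')
      (H : Fin N → MvPolynomial (Fin (1 + 1) ⊕ Fin N) (QS T)), (∀ j, H j ∈ PK ⊥) → ∀ (m gg : ℕ)
      (s : MSys T m (lin gg) (Fin r')) (e : Fin (1 + 1) ⊕ Fin N ≃ Fin m) (J : Finset (Fin m)),
        (∀ j ∈ J, ∃ b, e (Sum.inl b) = j) → (∀ a, cq s.Q (e a) = x2 c l K i0 H a) →
        (∀ i, PLe ((s.lf i).win 0) (rp (c.xi i))) →
        (∀ᶠ k in UF, ∀ ω, (T.F k).μ ω ≠ 0 → ∀ i, ∀ j ∈ J, ∀ y y' : Fin (s.lf i).e → ℝ,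
          (s.lf i).F k ω y j - (s.lf i).F k ω y' j = ∑ a, (y a - y' a) * mtan (ob s k) ω ⟨i, a⟩ j) →
        Pool.Agent.Helper37.DK2.R1 J s → NCq J h₀ s := by
  obtain ⟨δ, hδ, huc⟩ := uc_sys hA hV hT P r' (show (0 : ℝ) < 1 / 2 by norm_num)
  refine ⟨min (δ / 4) (1 / 8), lt_min (by linarith) (by norm_num), ?_⟩
  intro T c O hc i0 H hH m gg s e J hJ hx hw haf hR
  obtain ⟨h0, h1, cb, hct, hcb, t, hO⟩ := id hc
  have Ac := ct_ax hLB hTN hVT hT hct
  have Ab := ct_ax hLB hTN hVT hT hcb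
  refine ncq_one hδ (φ := fun i : Fin (1 + 1) => e (Sum.inl i)) ?_ hJ ?_ haf hR
  · intro W p A hA' e' he he1
    refine huc T h0 cb hcb.cc m (lin gg) s e' he he1 (pcr_le he1 fun j => ?_) (fun i => (hw i).trans
      (PLe_rp.mpr (t.xi_le Ac Ab i))) W p A hA'
    obtain ⟨a, rfl⟩ := e.surjective j
    rw [hx]
    exact x2_deep t Ab wl low hK i0 he.le he1 hH a
  · intro W p A hA' e' he he1 ε hε
    have hc2 := hcls.rest _ _ _ (hcls.pull _ _ _ hc W p) A hA'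
    have h2 := pln_e hcls hc2 i0 he1
    obtain ⟨Y, hY⟩ : ∃ Y : (Sp.im p A).VV (1 + 1), Y = sub (s.im p A hA').Q fun i : Fin (1 + 1) => e (Sum.inl i) :=
      ⟨_, rfl⟩
    have h3 : (((1 : ℕ) : ℝ) + 1) * e' ≤ Pool.Agent.Helper31.EC.H (Y.dg e') := by
      have e1 : Pool.Agent.Helper31.EC.H (Y.dg e') = Pool.Agent.Helper31.EC.H ((imq p A).map (Y.dg e')) :=
        ((imq p A).H_map _).symm
      have e2 : (imq p A).map (Y.dg e') = vd (fun i => (imq p A).qs (cq Y i)) e' := by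
        rw [dg_cq Y he1, (imq p A).qs_vd]
      have e3 : ∀ i : Fin (1 + 1), (imq p A).qs (cq Y i) = QS.rest A hA' (p.qs (x2 c l K i0 H (Sum.inl i))) := by
        intro i
        rw [hY, ← hx]
        rfl
      rw [e1, e2]
      refine le_trans (by norm_num) (h2.trans (H_mono (sup_le ?_ ?_)))
      · have e4 := dg_le_vd (fun i => (imq p A).qs (cq Y i)) e' 0
        simp only [e3] at e4 ⊢
        exact e4
      · have e4 := dg_le_vd (fun i => (imq p A).qs (cq Y i)) e' 1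
        simp only [e3] at e4 ⊢
        rw [fl_rest, fl_pull]
        exact e4
    have h4 := rt_geH Y h3 hε
    rw [hY] at h4
    exact h4

end

end

end Pool.Agent.Helper24.PR1
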