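import Pool.Agent.Helper10.BLD.Jt
import Pool.Agent.Helper10.BLD.C1
import Pool.Agent.Helper5.DO.Pln

/-! ONE UNIT DIRECTION: the point `(t, f, R)` (and its real triangular changes) along the curves; its digits and the
digits of the deep point. -/

set_option autoImplicit false

namespace Pool.Agent.Helper24.PR1

open Finset Filter Topology Pool.Agent.Helper69.RK Pool.Agent.Helper31.EC Pool.Agent.Helper31.EC.Sp
open Pool.Agent.Helper31.EC.QS Pool.Agent.Helper84.MT Pool.Agent.Helper36.AM Pool.Agent.Helper13.AM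
open Pool.Agent.Helper38.NS (dp)
open Pool.Agent.Helper5.DO Pool.Agent.Helper10.BLD
open Pool.Agent.Helper10.JET (tc)

noncomputable section

section

variable {S : Sp} {N r : ℕ}

/-- the point `(t, f, R)` -/
def pt2 (c : CD S 0 N r) (l : Fin N) (K : ℕ) (i0 : Fin r) : Fin (1 + 1) ⊕ Fin N → QS S :=
  Sum.elim ![c.q 0, fl c l K i0] c.R

/-- its coordinates along the curve of type `i`, as polynomials of the height -/
def P2 (c : CD S 0 N r) (l : Fin N) (K : ℕ) (i : Fin r) : Fin (1 + 1) ⊕ Fin N → Polynomial (QS S) :=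
  Sum.elim ![Polynomial.X, Polynomial.C (fa c l K i) + Polynomial.X * Polynomial.C (fu c l K i)]
    fun j => py (c.cf i j)

/-- changed coordinates -/
def x2 (c : CD S 0 N r) (l : Fin N) (K : ℕ) (i0 : Fin r)
    (H : Fin N → MvPolynomial (Fin (1 + 1) ⊕ Fin N) (QS S)) : Fin (1 + 1) ⊕ Fin N → QS S :=
  Sum.elim ![c.q 0, fl c l K i0] fun j => c.R j - MvPolynomial.eval (pt2 c l K i0) (H j)

/-- changed coordinates along the curve of type `i` -/
def X2 (c : CD S 0 N r) (l : Fin N) (K : ℕ) (H : Fin N → MvPolynomial (Fin (1 + 1) ⊕ Fin N) (QS S)) (i : Fin r) :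
    Fin (1 + 1) ⊕ Fin N → Polynomial (QS S) :=
  Sum.elim ![Polynomial.X, Polynomial.C (fa c l K i) + Polynomial.X * Polynomial.C (fu c l K i)]
    fun j => py (c.cf i j) - MvPolynomial.aeval (P2 c l K i) (H j)

variable {c : CD S 0 N r} {O : S.L} {w : Fin N → ℝ} {z l : Fin N} {K : ℕ} {ρ : ℝ}

theorem P2_eval (A : c.Ax w z ρ) (J : J1 c O w z l K) (i0 i : Fin r) (a : Fin (1 + 1) ⊕ Fin N) :
    (P2 c l K i a).eval (c.q 0) = pt2 c l K i0 a := by
  rcases a with b | j
  · fin_cases b
    · show (Polynomial.X : Polynomial (QS S)).eval (c.q 0) = c.q 0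
      rw [Polynomial.eval_X]
    · show (Polynomial.C (fa c l K i) + Polynomial.X * Polynomial.C (fu c l K i)).eval (c.q 0) = fl c l K i0
      rw [Polynomial.eval_add, Polynomial.eval_mul, Polynomial.eval_C, Polynomial.eval_X, Polynomial.eval_C,
        fl_line J i0 i]
  · show (py (c.cf i j)).eval (c.q 0) = c.R j
    rw [py_eval, A.ln.curve i j]

theorem X2_eval (A : c.Ax w z ρ) (J : J1 c O w z l K) (H : Fin N → MvPolynomial (Fin (1 + 1) ⊕ Fin N) (QS S))
    (i0 i : Fin r) (a : Fin (1 + 1) ⊕ Fin N) : (X2 c l K H i a).eval (c.q 0) = x2 c l K i0 H a := by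
  rcases a with b | j
  · exact P2_eval A J i0 i (Sum.inl b)
  · show (py (c.cf i j) - MvPolynomial.aeval (P2 c l K i) (H j)).eval (c.q 0) =
      c.R j - MvPolynomial.eval (pt2 c l K i0) (H j)
    have h1 : (py (c.cf i j)).eval (c.q 0) = c.R j := P2_eval A J i0 i (Sum.inr j)
    rw [Polynomial.eval_sub, h1]
    congr 1
    have h2 : Polynomial.eval (c.q 0) (MvPolynomial.aeval (P2 c l K i) (H j)) =
        MvPolynomial.eval (fun a => (P2 c l K i a).eval (c.q 0)) (H j) := by
      rw [MvPolynomial.aeval_def, MvPolynomial.eval₂_eq, MvPolynomial.eval_eq, Polynomial.eval_finsetSum]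
      refine Finset.sum_congr rfl fun d _ => ?_
      rw [Polynomial.eval_mul, Polynomial.eval_prod]
      simp only [Polynomial.eval_pow]
      congr 1
      exact Polynomial.eval_C
    rw [h2]
    congr 2
    funext a
    exact P2_eval A J i0 i a

theorem C_PU {A : S.L} {f : QS S} (h : dg f 1 ≤ A) : Polynomial.C f ∈ PU A := by
  intro m
  rw [Polynomial.coeff_C]
  split_ifs
  · exact h
  · exact (Kn S 1 le_rfl A).zero_mem

theorem X_PU (A : S.L) : (Polynomial.X : Polynomial (QS S)) ∈ PU A := by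
  intro m
  rw [Polynomial.coeff_X]
  split_ifs
  · exact (Kn S 1 le_rfl A).one_mem
  · exact (Kn S 1 le_rfl A).zero_mem

theorem P2_mem (A : c.Ax w z ρ) (i : Fin r) (a : Fin (1 + 1) ⊕ Fin N) : P2 c l K i a ∈ PU (c.xi i) := by
  have e1 := xi_eq A i
  rcases a with b | j
  · fin_cases b
    · exact X_PU _
    · show Polynomial.C (fa c l K i) + Polynomial.X * Polynomial.C (fu c l K i) ∈ PU (c.xi i)
      refine (PU _).add_mem (C_PU ?_) ((PU _).mul_mem (X_PU _) (C_PU ?_))
      · rw [e1]; exact fa_cv i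
      · rw [e1]; exact fu_cv i
  · show py (c.cf i j) ∈ PU (c.xi i)
    apply py_PU
    rw [e1]
    exact cf_le_cv i j

theorem X2_mem (A : c.Ax w z ρ) {H : Fin N → MvPolynomial (Fin (1 + 1) ⊕ Fin N) (QS S)} (hH : ∀ j, H j ∈ PK ⊥)
    (i : Fin r) (a : Fin (1 + 1) ⊕ Fin N) : X2 c l K H i a ∈ PU (c.xi i) := by
  rcases a with b | j
  · exact P2_mem A i (Sum.inl b)
  · show py (c.cf i j) - MvPolynomial.aeval (P2 c l K i) (H j) ∈ PU (c.xi i)
    refine (PU _).sub_mem (P2_mem (l := l) (K := K) A i (Sum.inr j)) ?_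
    rw [MvPolynomial.aeval_def, MvPolynomial.eval₂_eq]
    refine (PU _).sum_mem fun d _ => (PU _).mul_mem (C_PU ((hH j d).trans _root_.bot_le))
      ((PU _).prod_mem fun a _ => (PU _).pow_mem (P2_mem A i a) _)

/-- the base coordinates are linear along the curves -/
theorem X2_deg (H : Fin N → MvPolynomial (Fin (1 + 1) ⊕ Fin N) (QS S)) (i : Fin r) (b : Fin (1 + 1)) :
    (X2 c l K H i (Sum.inl b)).natDegree ≤ 1 := by
  fin_cases b
  · exact Polynomial.natDegree_X_le
  · show (Polynomial.C (fa c l K i) + Polynomial.X * Polynomial.C (fu c l K i)).natDegree ≤ 1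
    refine (Polynomial.natDegree_add_le _ _).trans (max_le ?_ ?_)
    · rw [Polynomial.natDegree_C]; exact zero_le_one
    · refine Polynomial.natDegree_mul_le.trans ?_
      rw [Polynomial.natDegree_C, add_zero]
      exact Polynomial.natDegree_X_le

theorem coeff_line {A : Type*} [CommRing A] (a u : A) : (Polynomial.C a + Polynomial.X * Polynomial.C u).coeff 1 = u := by
  have h1 : (Polynomial.X * Polynomial.C u).coeff (0 + 1) = u := by
    rw [Polynomial.coeff_X_mul, Polynomial.coeff_C_zero]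
  have h2 : (Polynomial.C a).coeff (0 + 1) = 0 := Polynomial.coeff_C_succ
  have h3 : (Polynomial.C a + Polynomial.X * Polynomial.C u).coeff (0 + 1) = u := by
    rw [Polynomial.coeff_add, h1, h2, zero_add]
  exact h3

theorem X2_one (H : Fin N → MvPolynomial (Fin (1 + 1) ⊕ Fin N) (QS S)) (i : Fin r) :
    X2 c l K H i (Sum.inl 1) = Polynomial.C (fa c l K i) + Polynomial.X * Polynomial.C (fu c l K i) := rfl

theorem X2_zero (H : Fin N → MvPolynomial (Fin (1 + 1) ⊕ Fin N) (QS S)) (i : Fin r) :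
    X2 c l K H i (Sum.inl 0) = Polynomial.X := rfl

/-- the directions of the base coordinates -/
theorem X2_coeff (H : Fin N → MvPolynomial (Fin (1 + 1) ⊕ Fin N) (QS S)) (i : Fin r) (b : Fin (1 + 1)) :
    dg ((X2 c l K H i (Sum.inl b)).coeff 1) 1 ≤ dg (fu c l K i) 1 := by
  have e : b = 0 ∨ b = 1 := by
    rcases b with ⟨n, hn⟩
    interval_cases n
    · exact Or.inl rfl
    · exact Or.inr rfl
  rcases e with e | e
  · rw [e, X2_zero, Polynomial.coeff_X_one]
    have h1 : (1 : QS S) ∈ Kn S 1 le_rfl (dg (fu c l K i) 1) := Subring.one_mem _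
    exact h1
  · rw [e, X2_one, coeff_line]

/-- the point is known to `O` -/
theorem x2_le {r' : ℝ} (hr : r' ≤ 1) {X : S.L} {i0 : Fin r} (h0 : dg (c.q 0) r' ≤ X) (h1 : dg (fl c l K i0) r' ≤ X)
    (h2 : ∀ j, dg (c.R j) r' ≤ X) {H : Fin N → MvPolynomial (Fin (1 + 1) ⊕ Fin N) (QS S)} (hH : ∀ j, H j ∈ PK ⊥)
    (a : Fin (1 + 1) ⊕ Fin N) : dg (x2 c l K i0 H a) r' ≤ X := by
  have h3 : ∀ a, pt2 c l K i0 a ∈ Kn S r' hr X := by
    rintro (b | j)
    · fin_cases b
      · exact h0
      · exact h1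
    · exact h2 j
  rcases a with b | j
  · exact h3 (Sum.inl b)
  · show c.R j - MvPolynomial.eval (pt2 c l K i0) (H j) ∈ Kn S r' hr X
    refine (Kn S r' hr X).sub_mem (h2 j) ?_
    rw [MvPolynomial.eval_eq]
    refine (Kn S r' hr X).sum_mem fun d _ => (Kn S r' hr X).mul_mem ?_ ((Kn S r' hr X).prod_mem fun a _ =>
      (Kn S r' hr X).pow_mem (h3 a) _)
    show dg ((H j).coeff d) r' ≤ X
    exact (dg_mono _ hr).trans ((hH j d).trans _root_.bot_le)

end

end

end Pool.Agent.Helper24.PR1
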