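import Pool.Agent.Helper24.PR1.Sys
import Pool.Agent.Helper24.PR.Prm
import Pool.Agent.Helper5.DO.VolH

/-! Row [PR1]: (PR) for the prolonged corners. -/

set_option autoImplicit false

namespace Pool.Agent.Helper24.PR1

open Finset Filter Topology Pool.Agent.Helper69.RK Pool.Agent.Helper31.EC Pool.Agent.Helper31.EC.Sp
open Pool.Agent.Helper31.EC.QS Pool.Agent.Helper84.MT Pool.Agent.Helper36.AM Pool.Agent.Helper13.AM
open Pool.Agent.Helper5.DO Pool.Agent.Helper10.BLD Pool.Agent.Helper40.EL Pool.Agent.Helper89.LX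
open Pool.Agent.Helper5.HB (cq)
open Pool.Agent.Helper24.PR (spl_card stqe_ncq)

noncomputable section

theorem id_qs {S : Sp} (x : QS S) : (Pj.id S).qs x = x := by
  obtain ⟨f, rfl⟩ := mk_surj x
  rfl

/-- **[PR1]** -/
theorem pr1_of (M : ℕ) (hA : ST_AXP) (hLB : ST_LBK) (hTN : ST_TN) (hV : ST_VWP (M + 1)) (hVT : ST_VWT (M + 1)) :
    ST_PR1 M := by
  intro g r Cl w ρ TT N r' P l K X h0 S c' hc' H hH
  have hN := spl_card P
  rw [Fintype.card_fin, Fintype.card_fin] at hN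
  have hcard : Fintype.card (Fin (1 + 1) ⊕ Fin N) = M + 2 + 1 := by
    rw [Fintype.card_sum, Fintype.card_fin, Fintype.card_fin]
    omega
  obtain ⟨e, -⟩ : ∃ e : Fin (1 + 1) ⊕ Fin N ≃ Fin (M + 2 + 1), True := ⟨Fintype.equivFinOfCardEq hcard, trivial⟩
  obtain ⟨h₀, hh, key⟩ := sys_c1 (r' := r') hA hLB hTN hV hVT X.hom P X.low X.wl X.hK X.cls e
  obtain ⟨c, O, i0, al, bV, hc, hX, hL, hcc⟩ := id hc'
  subst hcc
  obtain ⟨gg, s, J, s1, s2, s3, s4, s5, s6⟩ := key S c O hc i0 H hH.real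
  have he : ∀ i, Sum.elim (til c l K i0 al bV).q ((til c l K i0 al bV).cR H) i = cq s.Q (e i) := by
    intro i
    rw [s2]
    rcases i with b | j <;> rfl
  have hw : ∀ i, PLe ((s.lf i).win 0) (rp ((til c l K i0 al bV).xi i)) := by
    intro i
    refine (s5 i).1.trans (PLe_rp.mpr ?_)
    rw [xi_eq (X.cls.ax S c O hc)]
    exact le_sup_right
  refine stqe_ncq (Pj.id S) s e rfl s1 hh s6 (fun T p E hE D => vol_til_im h0 hc' hH s e he id hw p E hE D) ?_ _ _
    fun i => ?_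
  · rw [Fintype.card_fin]
    exact X.dk
  · rw [id_qs, ← he]

end

end Pool.Agent.Helper24.PR1
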