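import Pool.Agent.Helper24.PR1.Nc
import Pool.Agent.Helper21.PT.Sys

/-! ONE UNIT DIRECTION: there are systems at the points `(t, f, R)` of the corners of the class `C1`. -/

set_option autoImplicit false

namespace Pool.Agent.Helper24.PR1

open Finset Filter Topology Pool.Agent.Helper69.RK Pool.Agent.Helper31.EC Pool.Agent.Helper31.EC.Sp
open Pool.Agent.Helper31.EC.QS Pool.Agent.Helper84.MT Pool.Agent.Helper36.AM Pool.Agent.Helper13.AM
open Pool.Agent.Helper38.NS (dp)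
open Pool.Agent.Helper5.DO Pool.Agent.Helper10.BLD Pool.Agent.Helper40.EL Pool.Agent.Helper89.LX
open Pool.Agent.Helper5.HB (cq)
open Pool.Agent.Helper37.DK2 (NCq mtan)
open Pool.Agent.Helper49.MD (ob)

noncomputable section

section

variable {M g r N r' : ℕ} {w : Fin (M + 1) → ℝ} {ρ : ℝ} {Cl : MCl (M + 1)}
  {TT : ∀ S : Sp, MSys S (M + 1) (lin g) (Fin r) → Prop}

/-- SYSTEMS AT THE POINTS OF THE CORNERS, with non concentrated tangents -/
theorem sys_c1 (hA : ST_AXP) (hLB : ST_LBK) (hTN : ST_TN) (hV : ST_VWP M) (hVT : ST_VWT M) (hT : Hom M Cl g r w ρ TT)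
    (P : Spl w 0 N) {l : Fin N} {K : ℕ} (low : ∀ j, P.w l ≤ P.w j) (wl : P.w l = K) (hK : 2 ≤ K)
    (hcls : Cl1 N r' P.w P.z l K ρ (C1 P ρ TT r' l)) {m : ℕ} (e : Fin (1 + 1) ⊕ Fin N ≃ Fin m) :
    ∃ h₀ : ℝ, 0 < h₀ ∧ ∀ (T : Sp) (c : CD T 0 N r') (O : T.L), C1 P ρ TT r' l T c O → ∀ (i0 : Fin r')
      (H : Fin N → MvPolynomial (Fin (1 + 1) ⊕ Fin N) (QS T)), (∀ j, H j ∈ PK ⊥) →
        ∃ (gg : ℕ) (s : MSys T m (lin gg) (Fin r')) (J : Finset (Fin m)), (∀ j, j ∈ J ↔ ∃ b, e (Sum.inl b) = j) ∧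
          (∀ a, cq s.Q (e a) = x2 c l K i0 H a) ∧ (∀ i, (s.lf i).e = 1) ∧
          (∀ i x, x ≤ 1 → PLe ((s.lf i).win x) (rp (c.xi i ⊔ dg (c.q 0) x)) ∧
            PLe (rp (c.xi i ⊔ dg (c.q 0) x)) ((s.lf i).win x)) ∧
          (∀ i, PLe ((s.lf i).win 0) (rp (c.xi i)) ∧ PLe (rp (c.xi i)) ((s.lf i).win 0)) ∧ NCq J h₀ s := by
  classical
  obtain ⟨h₀, h0, key⟩ := ncq_c1 (r' := r') hA hLB hTN hV hVT hT P low wl hK hcls
  refine ⟨h₀, h0, fun T c O hc i0 H hH => ?_⟩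
  have A := hcls.ax T c O hc
  have J1' := hcls.j1 T c O hc
  obtain ⟨gg, hgg⟩ : ∃ gg : ℕ, gg = 1 + univ.sup fun x : Fin r' × (Fin (1 + 1) ⊕ Fin N) =>
    (X2 c l K H x.1 x.2).natDegree := ⟨_, rfl⟩
  obtain ⟨J, hJ⟩ : ∃ J : Finset (Fin m), J = univ.image fun b : Fin (1 + 1) => e (Sum.inl b) := ⟨_, rfl⟩
  have hJ' : ∀ j, j ∈ J ↔ ∃ b, e (Sum.inl b) = j := by
    intro j
    rw [hJ, Finset.mem_image]
    exact ⟨fun ⟨b, _, h⟩ => ⟨b, h⟩, fun ⟨b, h⟩ => ⟨b, Finset.mem_univ _, h⟩⟩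
  have hxO : vd (fun j => x2 c l K i0 H (e.symm j)) 1 ≤ O := by
    rw [vd_le]
    intro j
    exact x2_le le_rfl (((dg_le_vd c.q 1 0).trans le_sup_left).trans J1'.hO) (fl_O J1' i0)
      (fun j => ((dg_le_vd c.R 1 j).trans le_sup_right).trans J1'.hO) hH _
  obtain ⟨s, s1, s2, s3, s4, s5, s6⟩ := Pool.Agent.Helper21.PT.exists_sys1 (g := gg)
    (fun j => x2 c l K i0 H (e.symm j)) (c.q 0) c.xi A.ln.time (fun i j => X2 c l K H i (e.symm j))
    (fun i j => X2_mem A hH i _) (fun i j => X2_eval A J1' H i0 i _) (by omega)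
    (fun i j => by
      have h1 := Finset.le_sup (f := fun x : Fin r' × (Fin (1 + 1) ⊕ Fin N) => (X2 c l K H x.1 x.2).natDegree)
        (mem_univ (i, e.symm j))
      have h2 : (X2 c l K H i (e.symm j)).natDegree ≤ univ.sup fun x : Fin r' × (Fin (1 + 1) ⊕ Fin N) =>
        (X2 c l K H x.1 x.2).natDegree := h1
      omega) J
    (fun i j hj => by
      obtain ⟨b, rfl⟩ := (hJ' j).mp hj
      rw [Equiv.symm_apply_apply]
      exact X2_deg H i b) (univ.sup fun i => dg (fu c l K i) 1)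
    (fun i j hj => by
      obtain ⟨b, rfl⟩ := (hJ' j).mp hj
      rw [Equiv.symm_apply_apply]
      exact (X2_coeff H i b).trans (Finset.le_sup (f := fun i => dg (fu c l K i) 1) (mem_univ i)))
    (I_zero_mono J1'.r1 le_sup_left (hxO.trans le_sup_left))
  have hq : ∀ a, cq s.Q (e a) = x2 c l K i0 H a := by
    intro a
    have h1 := s1 (e a)
    rw [Equiv.symm_apply_apply] at h1
    exact h1
  exact ⟨gg, s, J, hJ', hq, s2, s3, s4, key T c O hc i0 H hH m gg s e J (fun j hj => (hJ' j).mp hj) hq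
    (fun i => (s4 i).1) s5 s6⟩

end

end

end Pool.Agent.Helper24.PR1
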